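import Mathlib

set_option autoImplicit false

namespace Pool.Agent.Results.MP_55e6a3_gt.ClosedImage

open Set Filter Cardinal

/-- Weak theta-refinability: every open cover has an open refinement `⋃ n, 𝒱 n` such that every
point lies in at least one and in only finitely many members of some `𝒱 n`. -/
def WeaklyThetaRefinable (X : Type) [TopologicalSpace X] : Prop :=
  ∀ 𝒰 : Set (Set X), (∀ U ∈ 𝒰, IsOpen U) → ⋃₀ 𝒰 = Set.univ →
    ∃ 𝒱 : ℕ → Set (Set X), (∀ n, ∀ V ∈ 𝒱 n, IsOpen V ∧ ∃ U ∈ 𝒰, V ⊆ U) ∧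
      ∀ x, ∃ n, {V | V ∈ 𝒱 n ∧ x ∈ V}.Nonempty ∧ {V | V ∈ 𝒱 n ∧ x ∈ V}.Finite

def II : Type := (Order.succ ℵ₀ : Cardinal.{0}).ord.ToType
def YY : Type := (Order.succ (Order.succ ℵ₀) : Cardinal.{0}).ord.ToType

noncomputable instance : LinearOrder II :=
  inferInstanceAs (LinearOrder (Order.succ ℵ₀ : Cardinal.{0}).ord.ToType)
instance : WellFoundedLT II :=
  inferInstanceAs (WellFoundedLT (Order.succ ℵ₀ : Cardinal.{0}).ord.ToType)
noncomputable instance : LinearOrder YY :=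
  inferInstanceAs (LinearOrder (Order.succ (Order.succ ℵ₀) : Cardinal.{0}).ord.ToType)
instance : WellFoundedLT YY :=
  inferInstanceAs (WellFoundedLT (Order.succ (Order.succ ℵ₀) : Cardinal.{0}).ord.ToType)

lemma bdd_gen (c : Cardinal.{0}) (hc : c.IsRegular) (S : Set c.ord.ToType) (h : #S < c) :
    ∃ b, ∀ s ∈ S, s < b := by
  rw [← not_isCofinal_iff]
  intro hS
  have h1 := Order.cof_le hS
  rw [Ordinal.cof_toType, hc.cof_ord] at h1
  exact absurd h (not_lt.mpr h1)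

lemma iio_gen (c : Cardinal.{0}) (i : c.ord.ToType) : #(Iio i) < c := by
  simpa using Cardinal.mk_Iio_lt i

lemma card_II : #II = Order.succ ℵ₀ := by
  unfold II; simp

lemma hI1 (i : II) : (Iic i).Countable := by
  have h : #(Iio i) < Order.succ ℵ₀ := iio_gen _ i
  have h2 : (Iio i).Countable := by
    rw [← Cardinal.le_aleph0_iff_set_countable]
    exact Order.lt_succ_iff.mp h
  rw [← Iio_insert]
  exact h2.insert i

lemma hI2 (C : Set II) (hC : C.Countable) : ∃ i, ∀ c ∈ C, c < i := by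
  apply bdd_gen _ (Cardinal.isRegular_succ le_rfl) C
  rw [← Cardinal.le_aleph0_iff_set_countable] at hC
  exact Order.lt_succ_iff.mpr hC

lemma hY2 (S : Set YY) (h : #S ≤ Order.succ ℵ₀) : ∃ b, ∀ s ∈ S, s < b :=
  bdd_gen _ (Cardinal.isRegular_succ (Order.le_succ _)) S (Order.lt_succ_iff.mpr h)

lemma hY0 (y : YY) : #(Iio y) ≤ Order.succ ℵ₀ :=
  Order.lt_succ_iff.mp (iio_gen _ y)

lemma hYc (S : Set YY) (h : S.Countable) : ∃ b, ∀ s ∈ S, s < b := by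
  apply hY2
  rw [← Cardinal.le_aleph0_iff_set_countable] at h
  exact h.trans (Order.le_succ _)

lemma hYf (g : II → YY) : ∃ b, ∀ i, g i < b := by
  obtain ⟨b, hb⟩ := hY2 (range g) (Cardinal.mk_range_le.trans card_II.le)
  exact ⟨b, fun i => hb _ ⟨i, rfl⟩⟩

instance : Nonempty II := by
  obtain ⟨i, _⟩ := hI2 ∅ countable_empty
  exact ⟨i⟩

instance : Nonempty YY := by
  obtain ⟨i, _⟩ := hYc ∅ countable_empty
  exact ⟨i⟩

lemma hY1 (y : YY) : ∃ e : YY → II, InjOn e (Iio y) := by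
  have h : #(Iio y) ≤ #II := by rw [card_II]; exact hY0 y
  obtain ⟨e⟩ := (Cardinal.le_def _ _).mp h
  classical
  refine ⟨fun z => if hz : z < y then e ⟨z, hz⟩ else Classical.arbitrary II, ?_⟩
  intro a ha b hb hab
  have ha' : a < y := ha
  have hb' : b < y := hb
  simp only [ha', hb', dif_pos] at hab
  exact congrArg Subtype.val (e.injective hab)

/-- uncountable cofinality (or successor) -/
def P (y : YY) : Prop :=
  ∀ C : Set YY, C.Countable → (∀ c ∈ C, c < y) → ∃ γ < y, ∀ c ∈ C, c ≤ γ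

instance topY : TopologicalSpace YY where
  IsOpen U := ∀ δ ∈ U, P δ → ∃ γ < δ, Ioc γ δ ⊆ U
  isOpen_univ := by
    intro δ _ hP
    obtain ⟨γ, hγ, _⟩ := hP ∅ countable_empty (by simp)
    exact ⟨γ, hγ, subset_univ _⟩
  isOpen_inter := by
    intro s t hs ht δ hδ hP
    obtain ⟨a, ha, ha2⟩ := hs δ hδ.1 hP
    obtain ⟨b, hb, hb2⟩ := ht δ hδ.2 hP
    refine ⟨max a b, max_lt ha hb, fun z hz => ⟨ha2 ⟨?_, hz.2⟩, hb2 ⟨?_, hz.2⟩⟩⟩
    · exact (le_max_left _ _).trans_lt hz.1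
    · exact (le_max_right _ _).trans_lt hz.1
  isOpen_sUnion := by
    intro S hS δ hδ hP
    obtain ⟨U, hU, hδU⟩ := hδ
    obtain ⟨a, ha, ha2⟩ := hS U hU δ hδU hP
    exact ⟨a, ha, fun z hz => ⟨U, hU, ha2 hz⟩⟩

lemma openY (U : Set YY) : IsOpen U ↔ ∀ δ ∈ U, P δ → ∃ γ < δ, Ioc γ δ ⊆ U := Iff.rfl

lemma open_lower (U : Set YY) (h : ∀ a ∈ U, ∀ b ≤ a, b ∈ U) : IsOpen U := by
  rw [openY]
  intro δ hδ hP
  obtain ⟨γ, hγ, _⟩ := hP ∅ countable_empty (by simp)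
  exact ⟨γ, hγ, fun z hz => h δ hδ z hz.2⟩

lemma open_Iic (a : YY) : IsOpen (Iic a) := open_lower _ (fun _ hx _ hb => le_trans hb hx)
lemma open_Iio (a : YY) : IsOpen (Iio a) := open_lower _ (fun _ hx _ hb => lt_of_le_of_lt hb hx)
lemma open_Ioi (a : YY) : IsOpen (Ioi a) := by
  rw [openY]
  intro δ hδ _
  exact ⟨a, hδ, fun z hz => hz.1⟩

instance : T2Space YY := by
  refine ⟨fun a b hab => ?_⟩
  rcases lt_or_gt_of_ne hab with h | h
  · exact ⟨Iic a, Ioi a, open_Iic a, open_Ioi a, self_mem_Iic, h, Iic_disjoint_Ioi le_rfl⟩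
  · exact ⟨Ioi b, Iic b, open_Ioi b, open_Iic b, h, self_mem_Iic, (Iic_disjoint_Ioi le_rfl).symm⟩

lemma regY : RegularSpace YY := by
  apply RegularSpace.of_exists_mem_nhds_isClosed_subset
  intro x s hs
  obtain ⟨U, hUs, hU, hx⟩ := mem_nhds_iff.mp hs
  by_cases hP : P x
  · obtain ⟨γ, hγ, h⟩ := (openY U).mp hU x hx hP
    refine ⟨Ioc γ x, ?_, ?_, h.trans hUs⟩
    · apply IsOpen.mem_nhds _ (show x ∈ Ioc γ x from ⟨hγ, le_rfl⟩)
      rw [← Ioi_inter_Iic]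
      exact (open_Ioi γ).inter (open_Iic x)
    · rw [← Ioi_inter_Iic]
      apply IsClosed.inter
      · rw [← isOpen_compl_iff, compl_Ioi]; exact open_Iic γ
      · rw [← isOpen_compl_iff, compl_Iic]; exact open_Ioi x
  · refine ⟨{x}, ?_, isClosed_singleton, by simpa using hUs hx⟩
    apply IsOpen.mem_nhds _ (mem_singleton x)
    rw [openY]
    intro δ hδ h
    rw [mem_singleton_iff] at hδ
    subst hδ
    exact absurd h hP

lemma closing (h : YY → YY) (hh : ∀ a, a ≤ h a) :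
    ∃ δ, P δ ∧ ∀ γ < δ, ∃ a, γ ≤ a ∧ h a < δ := by
  classical
  choose bnd hbnd using hYf
  let F : (i : II) → ((j : II) → j < i → YY) → YY :=
    fun i r => bnd (fun j => if hj : j < i then h (r j hj) else Classical.arbitrary YY)
  let α : II → YY := WellFoundedLT.fix F
  have hα : ∀ i j, j < i → h (α j) < α i := by
    intro i j hj
    have e : α i = F i (fun j _ => α j) := WellFoundedLT.fix_eq F i
    rw [e]
    have := hbnd (fun j => if hj : j < i then h (α j) else Classical.arbitrary YY) j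
    simpa only [hj, dif_pos] using this
  obtain ⟨b, hb⟩ : ∃ b, ∀ i, α i < b := ⟨bnd α, hbnd α⟩
  let S : Set YY := {b | ∀ i, α i < b}
  have hS : S.Nonempty := ⟨b, hb⟩
  let δ := wellFounded_lt.min S hS
  have h1 : ∀ i, α i < δ := wellFounded_lt.min_mem S hS
  have h2 : ∀ γ < δ, ∃ i, γ ≤ α i := by
    intro γ hγ
    by_contra hc
    push Not at hc
    exact wellFounded_lt.not_lt_min S hc hγ
  refine ⟨δ, ?_, ?_⟩
  · intro C hC hCδ
    have : ∀ c : C, ∃ i, (c : YY) ≤ α i := fun c => h2 c (hCδ c c.2)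
    choose k hk using this
    have := hC.to_subtype
    obtain ⟨i, hi⟩ := hI2 (range k) (countable_range k)
    refine ⟨α i, h1 i, fun c hc => ?_⟩
    exact (hk ⟨c, hc⟩).trans ((hh _).trans (hα i _ (hi _ ⟨_, rfl⟩)).le)
  · intro γ hγ
    obtain ⟨i, hi⟩ := h2 γ hγ
    obtain ⟨j, hj⟩ := hI2 {i} (countable_singleton i)
    exact ⟨α i, hi, (hα j i (hj i rfl)).trans (h1 j)⟩

lemma notY : ¬ WeaklyThetaRefinable YY := by
  intro H
  obtain ⟨𝒱, hV, hx⟩ := H (range Iic) (by rintro _ ⟨a, rfl⟩; exact open_Iic a) (by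
    ext x; simp only [mem_sUnion, mem_univ, iff_true]; exact ⟨Iic x, ⟨x, rfl⟩, self_mem_Iic⟩)
  classical
  have hb : ∀ V : Set YY, ∃ b : YY, (∃ n, V ∈ 𝒱 n) → ∀ z ∈ V, z ≤ b := by
    intro V
    by_cases h : ∃ n, V ∈ 𝒱 n
    · obtain ⟨n, hn⟩ := h
      obtain ⟨_, _, ⟨a, rfl⟩, ha⟩ := hV n V hn
      exact ⟨a, fun _ z hz => ha hz⟩
    · exact ⟨Classical.arbitrary YY, fun h' => absurd h' h⟩
  choose bV hbV using hb
  have h0 : ∀ β : YY, ∃ b : YY, ∀ n, {V | V ∈ 𝒱 n ∧ β ∈ V}.Finite →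
      ∀ V ∈ 𝒱 n, β ∈ V → ∀ z ∈ V, z < b := by
    intro β
    have hc : (⋃ n, ⋃ (_ : {V | V ∈ 𝒱 n ∧ β ∈ V}.Finite), bV '' {V | V ∈ 𝒱 n ∧ β ∈ V}).Countable :=
      countable_iUnion fun n => countable_iUnion fun h => (h.image bV).countable
    obtain ⟨b, hb⟩ := hYc _ hc
    refine ⟨b, fun n hn V hVn hβ z hz => (hbV V ⟨n, hVn⟩ z hz).trans_lt (hb _ ?_)⟩
    simp only [mem_iUnion]
    exact ⟨n, hn, V, ⟨hVn, hβ⟩, rfl⟩
  choose g0 hg0 using h0
  have h1 : ∀ a : YY, ∃ b : YY, ∀ β < a, g0 β < b := by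
    intro a
    obtain ⟨b, hb⟩ := hY2 (g0 '' Iio a) (Cardinal.mk_image_le.trans (hY0 a))
    exact ⟨b, fun β hβ => hb _ ⟨β, hβ, rfl⟩⟩
  choose g1 hg1 using h1
  let X : ℕ → Set YY := fun n =>
    {x | {V | V ∈ 𝒱 n ∧ x ∈ V}.Nonempty ∧ {V | V ∈ 𝒱 n ∧ x ∈ V}.Finite}
  have h2 : ∀ a : YY, ∃ b : YY, ∀ n, (∃ β ∈ X n, a < β) → ∃ β ∈ X n, a < β ∧ β < b := by
    intro a
    have : ∀ n, ∃ β : YY, (∃ β ∈ X n, a < β) → β ∈ X n ∧ a < β := by
      intro n
      by_cases h : ∃ β ∈ X n, a < β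
      · obtain ⟨β, hβ⟩ := h
        exact ⟨β, fun _ => hβ⟩
      · exact ⟨a, fun h' => absurd h' h⟩
    choose k hk using this
    obtain ⟨b, hb⟩ := hYc (range k) (countable_range k)
    exact ⟨b, fun n hn => ⟨k n, (hk n hn).1, (hk n hn).2, hb _ ⟨n, rfl⟩⟩⟩
  choose g2 hg2 using h2
  obtain ⟨δ, hP, hδ⟩ := closing (fun a => max a (max (g2 a) (g1 (g2 a)))) (fun a => le_max_left _ _)
  obtain ⟨n, hn⟩ := hx δ
  obtain ⟨V, hVn, hδV⟩ := hn.1
  obtain ⟨γ, hγ, hsub⟩ := (openY V).mp (hV n V hVn).1 δ hδV hP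
  obtain ⟨a, ha, hlt⟩ := hδ γ hγ
  simp only [max_lt_iff] at hlt
  obtain ⟨β, hβ, h3, h4⟩ := hg2 a n ⟨δ, hn, hlt.1⟩
  have hβV : β ∈ V := hsub ⟨ha.trans_lt h3, (h4.trans hlt.2.1).le⟩
  have := hg0 β n hβ.2 V hVn hβV δ hδV
  exact absurd (this.trans ((hg1 _ β h4).trans hlt.2.2)) (lt_irrefl _)

/-- subsets below `y` with countable proper initial pieces -/
def GoodS (y : YY) (T : Set YY) : Prop := (∀ t ∈ T, t < y) ∧ ∀ t < y, (T ∩ Iio t).Countable

lemma good_union {y : YY} {S T : Set YY} (hS : GoodS y S) (hT : GoodS y T) : GoodS y (S ∪ T) := by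
  refine ⟨fun t ht => ht.elim (hS.1 t) (hT.1 t), fun t ht => ?_⟩
  rw [union_inter_distrib_right]
  exact (hS.2 t ht).union (hT.2 t ht)

lemma good_mono {y : YY} {S T : Set YY} (hT : GoodS y T) (h : S ⊆ T) : GoodS y S :=
  ⟨fun t ht => hT.1 t (h ht), fun t ht => (hT.2 t ht).mono (inter_subset_inter_left _ h)⟩

lemma good_sep {y : YY} {T : Set YY} (hT : GoodS y T) :
    ∃ W : YY → Set YY, (∀ t ∈ T, IsOpen (W t) ∧ t ∈ W t ∧ W t ⊆ Iio y) ∧
      ∀ s ∈ T, ∀ t ∈ T, ∀ z, z ∈ W s → z ∈ W t → s = t := by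
  refine ⟨fun t => {z | z ≤ t ∧ ∀ s ∈ T, s < t → s < z}, ?_, ?_⟩
  · intro t ht
    refine ⟨?_, ⟨le_rfl, fun s _ h => h⟩, fun z hz => lt_of_le_of_lt hz.1 (hT.1 t ht)⟩
    rw [openY]
    intro z hz hP
    obtain ⟨γ, hγ, h⟩ := hP _ (hT.2 t (hT.1 t ht)) (fun c hc => hz.2 c hc.1 hc.2)
    exact ⟨γ, hγ, fun w hw => ⟨hw.2.trans hz.1, fun s hs hst => (h s ⟨hs, hst⟩).trans_lt hw.1⟩⟩
  · intro s hs t ht z hzs hzt
    rcases lt_trichotomy s t with h | h | h
    · exact absurd (hzt.2 s hs h) (not_lt.mpr hzs.1)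
    · exact h
    · exact absurd (hzs.2 t ht h) (not_lt.mpr hzt.1)

lemma good_exists {y : YY} {B : Set YY} (hB : ∀ b ∈ B, b < y) (hu : ∀ γ < y, ∃ b ∈ B, γ < b) :
    ∃ T ⊆ B, GoodS y T ∧ ∀ γ < y, ∃ t ∈ T, γ < t := by
  obtain ⟨e, he⟩ := hY1 y
  refine ⟨{b | b ∈ B ∧ ∀ b' ∈ B, e b' < e b → b' < b}, fun b hb => hb.1,
    ⟨fun t ht => hB t ht.1, ?_⟩, ?_⟩
  · intro t ht
    obtain ⟨b0, hb0, htb⟩ := hu t ht
    apply MapsTo.countable_of_injOn (f := e) (t := Iic (e b0)) ?_ ?_ (hI1 _)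
    · intro b hb
      by_contra hc
      have h1 : e b0 < e b := not_le.mp hc
      exact absurd ((hb.1.2 b0 hb0 h1).trans (hb.2.trans htb)) (lt_irrefl _)
    · exact he.mono (fun b hb => hB b hb.1.1)
  · intro γ hγ
    have hne : (e '' {b | b ∈ B ∧ γ < b}).Nonempty := by
      obtain ⟨b, hb, h⟩ := hu γ hγ
      exact ⟨e b, b, ⟨hb, h⟩, rfl⟩
    obtain ⟨b, hb, hbe⟩ := wellFounded_lt.min_mem _ hne
    refine ⟨b, ⟨hb.1, fun b' hb' hlt => ?_⟩, hb.2⟩
    by_contra hc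
    have h1 : γ < b' := hb.2.trans_le (not_lt.mp hc)
    rw [hbe] at hlt
    exact wellFounded_lt.not_lt_min (e '' {b | b ∈ B ∧ γ < b}) ⟨b', ⟨hb', h1⟩, rfl⟩ hlt

/-- the levels -/
def M : ℕ → Type
  | 0 => YY
  | n + 1 => Ultrafilter (M n) × YY

def fM : (n : ℕ) → M n → YY
  | 0, y => y
  | _ + 1, p => p.2

def Good (n : ℕ) (u : Ultrafilter (M n)) (y : YY) : Prop :=
  P y ∧ (∀ γ < y, {x | γ < fM n x} ∈ u) ∧ ∃ A ∈ u, InjOn (fM n) A ∧ GoodS y (fM n '' A)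

def XX : Type := Σ n, M n

def ff (p : XX) : YY := fM p.1 p.2

def mkX (n : ℕ) (x : M n) : XX := ⟨n, x⟩

open Classical in
noncomputable def FF : XX → Filter XX
  | ⟨0, _⟩ => ⊥
  | ⟨n + 1, p⟩ => if Good n p.1 p.2 then Filter.map (mkX n) (p.1 : Filter (M n)) else ⊥

instance topX : TopologicalSpace XX where
  IsOpen U := ∀ p ∈ U, U ∈ FF p
  isOpen_univ := fun _ _ => univ_mem
  isOpen_inter := fun _ _ hs ht p hp => inter_mem (hs p hp.1) (ht p hp.2)
  isOpen_sUnion := fun _ hS p ⟨U, hU, hp⟩ =>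
    mem_of_superset (hS U hU p hp) (subset_sUnion_of_mem hU)

lemma openX (U : Set XX) : IsOpen U ↔ ∀ p ∈ U, U ∈ FF p := Iff.rfl

lemma FF_cases (p : XX) : FF p = ⊥ ∨ ∃ n, ∃ u : Ultrafilter (M n), ∃ y,
    p = mkX (n + 1) (u, y) ∧ Good n u y ∧ FF p = Filter.map (mkX n) (u : Filter (M n)) := by
  obtain ⟨n, x⟩ := p
  cases n with
  | zero => exact Or.inl rfl
  | succ n =>
    obtain ⟨u, y⟩ := x
    by_cases h : Good n u y
    · exact Or.inr ⟨n, u, y, rfl, h, if_pos h⟩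
    · exact Or.inl (if_neg h)

lemma mkX_inj (n : ℕ) : Function.Injective (mkX n) := sigma_mk_injective

lemma FF_core (p : XX) : ∃ A ∈ FF p, InjOn ff A ∧ GoodS (ff p) (ff '' A) ∧
    ∀ q ∈ A, q.1 + 1 = p.1 := by
  rcases FF_cases p with h | ⟨n, u, y, rfl, hg, h⟩
  · refine ⟨∅, by rw [h]; exact mem_bot, injOn_empty _, ?_, by simp⟩
    simp [GoodS]
  · obtain ⟨A, hA, hinj, hgood⟩ := hg.2.2
    refine ⟨mkX n '' A, by rw [h]; exact image_mem_map hA, ?_, ?_, ?_⟩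
    · rintro _ ⟨a, ha, rfl⟩ _ ⟨b, hb, rfl⟩ hab
      exact congrArg _ (hinj ha hb hab)
    · rw [image_image]; exact hgood
    · rintro _ ⟨a, _, rfl⟩; rfl

lemma FF_conv (p : XX) (V : Set YY) (hV : IsOpen V) (hp : ff p ∈ V) : ff ⁻¹' V ∈ FF p := by
  rcases FF_cases p with h | ⟨n, u, y, rfl, hg, h⟩
  · rw [h]; exact mem_bot
  · rw [h, mem_map]
    obtain ⟨γ, hγ, hsub⟩ := (openY V).mp hV y hp hg.1
    obtain ⟨A, hA, _, hgood⟩ := hg.2.2
    filter_upwards [hg.2.1 γ hγ, hA] with x h1 h2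
    exact hsub ⟨h1, (hgood.1 _ ⟨x, h2, rfl⟩).le⟩

lemma cont_ff : Continuous ff :=
  continuous_def.mpr fun V hV => (openX _).mpr fun p hp => FF_conv p V hV hp

lemma FF_disj (p q : XX) (hpq : p ≠ q) (hf : ff p = ff q) :
    ∃ A ∈ FF p, ∃ B ∈ FF q, Disjoint A B := by
  by_cases hl : p.1 = q.1
  · rcases FF_cases p with h | ⟨n, u, y, rfl, hg, h⟩
    · exact ⟨∅, by rw [h]; exact mem_bot, Set.univ, univ_mem, empty_disjoint _⟩
    rcases FF_cases q with h' | ⟨m, v, z, rfl, hg', h'⟩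
    · exact ⟨Set.univ, univ_mem, ∅, by rw [h']; exact mem_bot, disjoint_empty _⟩
    have hnm : n = m := Nat.succ_injective hl
    subst hnm
    have hyz : y = z := hf
    subst hyz
    have huv : u ≠ v := fun e => hpq (by rw [e])
    have : ∃ s, s ∈ u ∧ s ∉ v := by
      by_contra hc
      push Not at hc
      exact huv (Ultrafilter.eq_of_le (show (v : Filter (M n)) ≤ u from fun s hs => hc s hs)).symm
    obtain ⟨s, hs, hs'⟩ := this
    refine ⟨mkX n '' s, by rw [h]; exact image_mem_map hs, mkX n '' sᶜ,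
      by rw [h']; exact image_mem_map (Ultrafilter.compl_mem_iff_notMem.mpr hs'), ?_⟩
    exact (disjoint_image_iff (mkX_inj n)).mpr disjoint_compl_right
  · obtain ⟨A, hA, _, _, h1⟩ := FF_core p
    obtain ⟨B, hB, _, _, h2⟩ := FF_core q
    refine ⟨A, hA, B, hB, Set.disjoint_left.mpr fun x hx hx' => hl ?_⟩
    rw [← h1 x hx, ← h2 x hx']

lemma open_insert (p : XX) (O : Set XX) (hO : IsOpen O) (h : O ∈ FF p) : IsOpen (insert p O) := by
  rw [openX]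
  intro q hq
  rcases hq with rfl | hq
  · exact mem_of_superset h (subset_insert _ _)
  · exact mem_of_superset ((openX O).mp hO q hq) (subset_insert _ _)

lemma sepX (N : ℕ) : ∀ p q : XX, p.1 + q.1 < N → p ≠ q →
    ∃ U V : Set XX, IsOpen U ∧ IsOpen V ∧ p ∈ U ∧ q ∈ V ∧ Disjoint U V := by
  induction N with
  | zero => intro p q h; omega
  | succ N ih =>
    intro p q hN hpq
    by_cases hf : ff p = ff q
    swap
    · obtain ⟨U, V, hU, hV, h1, h2, h3⟩ := t2_separation hf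
      exact ⟨ff ⁻¹' U, ff ⁻¹' V, hU.preimage cont_ff, hV.preimage cont_ff, h1, h2, h3.preimage _⟩
    obtain ⟨A0, hA0, B0, hB0, hd⟩ := FF_disj p q hpq hf
    obtain ⟨A, hA, hAi, hAg, hAl⟩ := FF_core p
    obtain ⟨B, hB, hBi, hBg, hBl⟩ := FF_core q
    rw [← hf] at hBg
    obtain ⟨W, hW, hWd⟩ := good_sep (good_union hAg hBg)
    have key : ∀ t : YY, ∃ O O' : Set XX, IsOpen O ∧ IsOpen O' ∧ Disjoint O O' ∧
        (∀ a ∈ A ∩ A0, ff a = t → a ∈ O) ∧ (∀ b ∈ B ∩ B0, ff b = t → b ∈ O') := by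
      intro t
      by_cases h1 : ∃ a ∈ A ∩ A0, ff a = t
      · by_cases h2 : ∃ b ∈ B ∩ B0, ff b = t
        · obtain ⟨a, ha, hat⟩ := h1
          obtain ⟨b, hb, hbt⟩ := h2
          have hab : a ≠ b := by
            rintro rfl
            exact Set.disjoint_left.mp hd ha.2 hb.2
          have l1 := hAl a ha.1
          have l2 := hBl b hb.1
          obtain ⟨O, O', hO, hO', h3, h4, h5⟩ := ih a b (by omega) hab
          refine ⟨O, O', hO, hO', h5, fun a' ha' h => ?_, fun b' hb' h => ?_⟩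
          · rw [hAi ha'.1 ha.1 (h.trans hat.symm)]; exact h3
          · rw [hBi hb'.1 hb.1 (h.trans hbt.symm)]; exact h4
        · exact ⟨Set.univ, ∅, isOpen_univ, isOpen_empty, disjoint_empty _, fun _ _ _ => trivial,
            fun b hb h => absurd ⟨b, hb, h⟩ h2⟩
      · exact ⟨∅, Set.univ, isOpen_empty, isOpen_univ, empty_disjoint _,
          fun a ha h => absurd ⟨a, ha, h⟩ h1, fun _ _ _ => trivial⟩
    choose O O' hO hO' hOd hOa hOb using key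
    let T := ff '' A ∪ ff '' B
    have o1 : IsOpen (⋃ t ∈ T, O t ∩ ff ⁻¹' W t) :=
      isOpen_biUnion fun t ht => (hO t).inter ((hW t ht).1.preimage cont_ff)
    have o2 : IsOpen (⋃ t ∈ T, O' t ∩ ff ⁻¹' W t) :=
      isOpen_biUnion fun t ht => (hO' t).inter ((hW t ht).1.preimage cont_ff)
    refine ⟨insert p (⋃ t ∈ T, O t ∩ ff ⁻¹' W t), insert q (⋃ t ∈ T, O' t ∩ ff ⁻¹' W t),
      open_insert _ _ o1 ?_, open_insert _ _ o2 ?_, mem_insert _ _, mem_insert _ _, ?_⟩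
    · filter_upwards [hA, hA0] with a h1 h2
      have ht : ff a ∈ T := Or.inl ⟨a, h1, rfl⟩
      exact mem_biUnion ht ⟨hOa _ a ⟨h1, h2⟩ rfl, (hW _ ht).2.1⟩
    · filter_upwards [hB, hB0] with a h1 h2
      have ht : ff a ∈ T := Or.inr ⟨a, h1, rfl⟩
      exact mem_biUnion ht ⟨hOb _ a ⟨h1, h2⟩ rfl, (hW _ ht).2.1⟩
    · rw [Set.disjoint_left]
      intro x hx hx'
      rcases hx with rfl | hx
      · rcases hx' with h | hx'
        · exact hpq h
        · obtain ⟨t, ht, h⟩ := mem_iUnion₂.mp hx'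
          exact lt_irrefl _ (show ff x < ff x from (hW t ht).2.2 h.2)
      · obtain ⟨t, ht, h⟩ := mem_iUnion₂.mp hx
        rcases hx' with rfl | hx'
        · have : ff x < ff p := (hW t ht).2.2 h.2
          rw [hf] at this
          exact lt_irrefl _ this
        · obtain ⟨s, hs, h'⟩ := mem_iUnion₂.mp hx'
          have := hWd t ht s hs _ h.2 h'.2
          subst this
          exact Set.disjoint_left.mp (hOd t) h.1 h'.1

lemma t2X : T2Space XX :=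
  ⟨fun p q h => sepX (p.1 + q.1 + 1) p q (Nat.lt_succ_self _) h⟩

lemma open_low (p : XX) : IsOpen (insert p {q : XX | q.1 < p.1}) := by
  have h : ∀ n, ∀ q : XX, q.1 ≤ n → {r : XX | r.1 < n} ∈ FF q := by
    intro n q hq
    obtain ⟨A, hA, _, _, hl⟩ := FF_core q
    filter_upwards [hA] with r hr
    have := hl r hr
    show r.1 < n
    omega
  exact open_insert _ _ ((openX _).mpr fun q hq => h _ q (le_of_lt hq)) (h _ p le_rfl)

lemma closed_ff : IsClosedMap ff := by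
  intro F hF
  rw [← isOpen_compl_iff, openY]
  intro y hy hP
  by_cases hb : ∀ n, ∃ γ < y, ∀ x : M n, mkX n x ∈ F → fM n x < y → fM n x ≤ γ
  · choose γ hγ hγ2 using hb
    obtain ⟨c, hc, hc2⟩ := hP (range γ) (countable_range γ) (by rintro _ ⟨n, rfl⟩; exact hγ n)
    refine ⟨c, hc, ?_⟩
    rintro z hz ⟨⟨n, x⟩, hx, rfl⟩
    rcases eq_or_lt_of_le hz.2 with h | h
    · exact hy ⟨_, hx, h⟩
    · exact absurd ((hγ2 n x hx h).trans (hc2 _ ⟨n, rfl⟩)) (not_le.mpr hz.1)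
  · exfalso
    push Not at hb
    obtain ⟨n, hn⟩ := hb
    obtain ⟨T, hT, hg, hcof⟩ := good_exists (y := y)
      (B := fM n '' {x | mkX n x ∈ F ∧ fM n x < y}) (by rintro _ ⟨x, hx, rfl⟩; exact hx.2)
      (fun γ hγ => by
        obtain ⟨x, h1, h2, h3⟩ := hn γ hγ
        exact ⟨_, ⟨x, ⟨h1, h2⟩, rfl⟩, h3⟩)
    obtain ⟨A, hA, hbij⟩ :=
      (show SurjOn (fM n) {x | mkX n x ∈ F ∧ fM n x < y} T from hT).exists_bijOn_subset
    obtain ⟨γ0, hγ0, _⟩ := hP ∅ countable_empty (by simp)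
    have : Nonempty (Iio y) := ⟨⟨γ0, hγ0⟩⟩
    let G : Iio y → Filter (M n) := fun γ => 𝓟 (A ∩ {x | γ.1 < fM n x})
    have hne : (⨅ γ, G γ).NeBot := by
      apply iInf_neBot_of_directed'
      · intro a b
        refine ⟨max a b, principal_mono.mpr ?_, principal_mono.mpr ?_⟩
        · exact fun x hx => ⟨hx.1, lt_of_le_of_lt (show a.1 ≤ (max a b).1 from le_max_left a b) hx.2⟩
        · exact fun x hx => ⟨hx.1, lt_of_le_of_lt (show b.1 ≤ (max a b).1 from le_max_right a b) hx.2⟩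
      · intro γ
        obtain ⟨t, ht, h⟩ := hcof γ.1 γ.2
        obtain ⟨x, hx, rfl⟩ := hbij.surjOn ht
        exact principal_neBot_iff.mpr ⟨x, hx, h⟩
    let u : Ultrafilter (M n) := Ultrafilter.of (⨅ γ, G γ)
    have hu : ∀ γ : Iio y, A ∩ {x | γ.1 < fM n x} ∈ u := fun γ =>
      (Ultrafilter.of_le _).trans (iInf_le G γ) (mem_principal_self _)
    have hAu : A ∈ u := mem_of_superset (hu ⟨γ0, hγ0⟩) inter_subset_left
    have hgood : Good n u y :=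
      ⟨hP, fun γ hγ => mem_of_superset (hu ⟨γ, hγ⟩) inter_subset_right, A, hAu, hbij.injOn,
        by rw [hbij.image_eq]; exact hg⟩
    have hp : mkX (n + 1) (u, y) ∈ Fᶜ := fun h => hy ⟨_, h, rfl⟩
    have h1 := (openX _).mp hF.isOpen_compl _ hp
    have h2 : FF (mkX (n + 1) (u, y)) = Filter.map (mkX n) (u : Filter (M n)) := if_pos hgood
    rw [h2, mem_map] at h1
    obtain ⟨x, hx1, hx2⟩ := u.nonempty_of_mem (inter_mem h1 hAu)
    exact hx1 (hA hx2).1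

lemma wtr_sub (S : Set XX) : WeaklyThetaRefinable S := by
  intro 𝒰 hU hcov
  have h : ∀ p : S, ∃ U ∈ 𝒰, p ∈ U := fun p => by
    have : p ∈ ⋃₀ 𝒰 := hcov ▸ mem_univ p
    exact this
  choose U hU1 hU2 using h
  let V : S → Set S := fun p => U p ∩ Subtype.val ⁻¹' (insert p.1 {q : XX | q.1 < p.1.1})
  have hV : ∀ p, p ∈ V p := fun p => ⟨hU2 p, mem_insert _ _⟩
  refine ⟨fun n => V '' {p | p.1.1 = n}, ?_, fun x => ⟨x.1.1, ⟨V x, ⟨x, rfl, rfl⟩, hV x⟩, ?_⟩⟩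
  · rintro n _ ⟨p, _, rfl⟩
    exact ⟨(hU _ (hU1 p)).inter ((open_low p.1).preimage continuous_subtype_val), U p, hU1 p,
      inter_subset_left⟩
  · apply (finite_singleton (V x)).subset
    rintro _ ⟨⟨p, hp, rfl⟩, hx⟩
    rcases hx.2 with h | h
    · rw [Subtype.ext h]; rfl
    · have h1 : p.1.1 = x.1.1 := hp
      have h2 : x.1.1 < p.1.1 := h
      omega

theorem result :
    ∃ (X Y : Type) (_ : TopologicalSpace X) (_ : TopologicalSpace Y) (f : X → Y),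
      T2Space X ∧ T3Space Y ∧ WeaklyThetaRefinable X ∧ (∀ S : Set X, WeaklyThetaRefinable S) ∧
      Continuous f ∧ Function.Surjective f ∧ IsClosedMap f ∧ ¬ WeaklyThetaRefinable Y := by
  have := regY
  refine ⟨XX, YY, inferInstance, inferInstance, ff, t2X, inferInstance, ?_, wtr_sub, cont_ff,
    fun y => ⟨mkX 0 y, rfl⟩, closed_ff, notY⟩
  intro 𝒰 hU hcov
  have h : ∀ p : XX, ∃ U ∈ 𝒰, p ∈ U := fun p => by
    have : p ∈ ⋃₀ 𝒰 := hcov ▸ mem_univ p
    exact this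
  choose U hU1 hU2 using h
  let V : XX → Set XX := fun p => U p ∩ (insert p {q : XX | q.1 < p.1})
  have hV : ∀ p, p ∈ V p := fun p => ⟨hU2 p, mem_insert _ _⟩
  refine ⟨fun n => V '' {p | p.1 = n}, ?_, fun x => ⟨x.1, ⟨V x, ⟨x, rfl, rfl⟩, hV x⟩, ?_⟩⟩
  · rintro n _ ⟨p, _, rfl⟩
    exact ⟨(hU _ (hU1 p)).inter (open_low p), U p, hU1 p, inter_subset_left⟩
  · apply (finite_singleton (V x)).subset
    rintro _ ⟨⟨p, hp, rfl⟩, hx⟩
    rcases hx.2 with h | h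
    · rw [h]; rfl
    · have h1 : p.1 = x.1 := hp
      have h2 : x.1 < p.1 := h
      omega

end Pool.Agent.Results.MP_55e6a3_gt.ClosedImage
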